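import Pool.Agent.Lib_helper54.SchmidtMain

/-!
# Schmidt rank of multilinear forms over a field versus its algebraic closure

Q1 asks for a constant `κ_d` (`d ≥ 4`) with `r_K(P) ≤ κ_d * r_{K̄}(P)` for every field `K` and every
multilinear polynomial `P` of degree `d` over `K`.  We prove that there is no such constant,
for every `d ≥ 3` and in every positive characteristic `p`; even over one fixed field `K`,
namely `F_p(t_0, t_1, ...)`.  More generally, over every field `K` of characteristic `p` which is
not a finite extension of `K^p`, not even a bound `r_K(P) ≤ C * r_{K̄}(P) ^ (1 + ε)` holds, for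
some `ε = ε(p, d) > 0`.

Idea: let `A = K(t_1^(1/p), ..., t_n^(1/p))` be a purely inseparable extension of degree `p^n` and
`P(x_1, ..., x_d) = φ(x_1 ⋯ x_d)` for a linear functional `φ ≠ 0` on `A`.  As `A` is a field, `P` is
nonsingular on `K`-points, which forces `r_K(P) ≥ p^n / 2^(d-1)`.  Over `K̄` the algebra `A`
becomes the truncated polynomial ring `K̄[ε_1, ..., ε_n] / (ε_i^p)`, and `P` vanishes on the `d`-th
power of the subspace spanned by the monomials of degree `> (p-1) n / d`, whose codimension is
exponentially smaller than `p^n`.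
-/

namespace Pool.Agent.Results.MP_521cd7_ag.Disproof

open Pool.Agent.Lib_helper54.Schmidt

/-- Negative answer to Q1, for every `d ≥ 3`, in every characteristic `p > 0`, over a fixed field;
and failure of any bound of the form `C * r ^ (1 + ε)` over every field of infinite `p`-degree. -/
theorem result.{u} (p : ℕ) [Fact p.Prime] :
    (∃ (K : Type) (_ : Field K) (_ : CharP K p), ∀ d : ℕ, 3 ≤ d → ∀ κ : ℝ,
      ∃ (m : ℕ) (F : MultilinearMap K (fun _ : Fin d => Fin m → K) K),
        κ * (rankBar F : ℝ) < (rank F : ℝ)) ∧
    (∀ d : ℕ, 3 ≤ d → ∃ ε : ℝ, 0 < ε ∧ ∀ (K : Type u) [Field K] [CharP K p],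
      ¬ Module.Finite (frobenius K p).fieldRange K → ∀ C : ℝ,
      ∃ (m : ℕ) (F : MultilinearMap K (fun _ : Fin d => Fin m → K) K),
        C * (rankBar F : ℝ) ^ (1 + ε) < (rank F : ℝ)) := by
  refine ⟨⟨FractionRing (MvPolynomial ℕ (ZMod p)), inferInstance, inferInstance, ?_⟩, ?_⟩
  · intro d hd κ
    exact linear_gap p d hd _ (not_finite_fractionRing p) κ
  · intro d hd
    exact power_gap p d hd

end Pool.Agent.Results.MP_521cd7_ag.Disproof
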